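import Pool.Agent.H45.KC.DJ
import Pool.Agent.H86.FD.Alg

/-!
# AB, module DLlin: the logarithmic derivatives of a linear factor

`DL j (C α + C β X) = - L_(j-1)(-β/α)` for `j ≥ 2`, `α + β ≠ 0`.
-/

open Polynomial NumberField H45KC H86FD

namespace H86AB

variable {k : Type*} [Field k]

theorem Nm_lin (s : k) (n : ℕ) :
    Nm (1 - C s * X : k[X]) (n + 1)
      = -((LP (n + 1)).map (Int.castRingHom k)).comp (C s * X) := by
  have hth : th (1 - C s * X : k[X]) = -(C s * X) := by
    simp [th]
  induction n with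
  | zero =>
    have h1 : (LP (0 + 1)).map (Int.castRingHom k) = X := by
      simp [LP]
    rw [h1, X_comp, Nm, Nm, hth]
    have h2 : th (-(C s * X) : k[X]) = -(C s * X) := by
      simp [th]
    rw [h2]
    push_cast
    ring
  | succ n ih =>
    rw [Nm, ih, hth]
    set Q := (LP (n + 1)).map (Int.castRingHom k) with hQ
    have h1 : (LP (n + 1 + 1)).map (Int.castRingHom k) =
        X * (1 - X) * derivative Q + (((n + 1 : ℕ) : k[X]) + 1) * X * Q := by
      rw [LP]
      simp [Polynomial.map_add, Polynomial.map_mul, Polynomial.map_sub, hQ,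
        derivative_map]
    have h2 : th (-(Q.comp (C s * X))) = -((X * derivative Q).comp (C s * X)) := by
      rw [th, derivative_neg, derivative_comp, mul_comp, X_comp]
      simp
      ring
    rw [h1, h2]
    simp only [add_comp, mul_comp, sub_comp, X_comp, one_comp, natCast_comp]
    push_cast
    ring

theorem LL_zero (m : ℕ) : LL (m + 1) (0 : k) = 0 := by
  have h1 : ((LP (m + 1)).map (Int.castRingHom k)).eval 0 = 0 := by
    rw [LP]
    simp
  rw [LL, h1, zero_div]

theorem DL_one_sub (j : ℕ) (hj : 2 ≤ j) (s : k) :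
    DL j (1 - C s * X : k[X]) = -LL (j - 1) s := by
  obtain ⟨n, rfl⟩ : ∃ n, j = n + 2 := ⟨j - 2, by omega⟩
  rw [DL, show n + 2 - 1 = n + 1 by omega, Nm_lin, LL]
  simp [eval_comp]
  ring

theorem DL_lin (j : ℕ) (hj : 2 ≤ j) (α β : k) (h : α + β ≠ 0) :
    DL j (C α + C β * X : k[X]) = -LL (j - 1) (-β / α) := by
  obtain ⟨n, rfl⟩ : ∃ n, j = n + 2 := ⟨j - 2, by omega⟩
  by_cases hα : α = 0
  · subst hα
    rw [zero_add] at h
    rw [C_0, zero_add, DL_mul _ (by omega) _ _ (by rw [eval_C]; exact h) (by simp),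
      DL_C _ (by omega), DL_X _ (by omega), div_zero, show n + 2 - 1 = n + 1 by omega, LL_zero]
    simp
  · have h1 : (C α + C β * X : k[X]) = C α * (1 - C (-β / α) * X) := by
      rw [mul_sub, ← mul_assoc, ← C_mul, mul_div_cancel₀ _ hα, C_neg]
      ring
    rw [h1, DL_mul _ (by omega), DL_C _ (by omega), zero_add, DL_one_sub _ (by omega)]
    · rw [eval_C]; exact hα
    · simp only [eval_sub, eval_one, eval_mul, eval_C, eval_X, mul_one]
      intro h2
      apply h
      have h3 : α * (1 - -β / α) = α + β := by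
        field_simp
        ring
      rw [← h3, h2, mul_zero]

/-- `∏ (α_v + β_v X)` -/
theorem DL_prod_lin {ι : Type*} (s : Finset ι) (j : ℕ) (hj : 2 ≤ j) (α β : ι → k)
    (h : ∀ v ∈ s, α v + β v ≠ 0) :
    DL j (∏ v ∈ s, (C (α v) + C (β v) * X : k[X])) = -∑ v ∈ s, LL (j - 1) (-β v / α v) := by
  have h1 := DL_prod j (by omega) s (fun v => (C (α v) + C (β v) * X : k[X])) (fun _ => 1)
    (by intro v hv; simpa using h v hv)
  simp only [pow_one, Nat.cast_one, one_mul] at h1
  rw [h1, ← Finset.sum_neg_distrib]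
  apply Finset.sum_congr rfl
  intro v hv
  exact DL_lin j hj _ _ (h v hv)

end H86AB
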