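import Pool.Agent.H45.KC.DJ
import Pool.Agent.H86.FD.Alg

/-!
# AB, module RelM: the relation (R) for one Stickelberger set

`M = ℚ(ζ_(fp))`, `k` a field of characteristic `p`, `ρ` a primitive `f`-th root of unity in `k`.
`Gr z G = G(z X)` in `k[X]`.  If `G(ζ) = 0` then `(X-1)^(p-1) ∣ G(ρ X)`.
-/

open Polynomial NumberField H45KC

namespace H86AB

variable {k : Type*} [Field k]

/-- `G(z X)` -/
noncomputable def Gr (z : k) (G : ℤ[X]) : k[X] := (G.map (Int.castRingHom k)).comp (C z * X)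

/-- `G(z)` -/
noncomputable def ev (z : k) (G : ℤ[X]) : k := (G.map (Int.castRingHom k)).eval z

theorem Gr_eval_one (z : k) (G : ℤ[X]) : (Gr z G).eval 1 = ev z G := by
  simp [Gr, ev, eval_comp]

theorem Gr_mul (z : k) (G H : ℤ[X]) : Gr z (G * H) = Gr z G * Gr z H := by
  simp [Gr, Polynomial.map_mul, mul_comp]

theorem Gr_add (z : k) (G H : ℤ[X]) : Gr z (G + H) = Gr z G + Gr z H := by
  simp [Gr, Polynomial.map_add, add_comp]

theorem Gr_sub (z : k) (G H : ℤ[X]) : Gr z (G - H) = Gr z G - Gr z H := by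
  simp [Gr, Polynomial.map_sub, sub_comp]

theorem Gr_pow (z : k) (G : ℤ[X]) (n : ℕ) : Gr z (G ^ n) = Gr z G ^ n := by
  simp [Gr, Polynomial.map_pow, pow_comp]

theorem Gr_X (z : k) : Gr z X = C z * X := by
  simp [Gr]

theorem Gr_prod {ι : Type*} (z : k) (s : Finset ι) (G : ι → ℤ[X]) :
    Gr z (∏ i ∈ s, G i) = ∏ i ∈ s, Gr z (G i) := by
  classical
  induction s using Finset.induction_on with
  | empty => simp [Gr]
  | insert a s ha ih => rw [Finset.prod_insert ha, Finset.prod_insert ha, Gr_mul, ih]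

theorem Gr_comp (z : k) (G : ℤ[X]) (t : ℕ) :
    Gr z (G.comp (X ^ t)) = (Gr (z ^ t) G).comp (X ^ t) := by
  simp only [Gr, Polynomial.map_comp, Polynomial.map_pow, map_X]
  rw [comp_assoc, comp_assoc]
  simp only [pow_comp, X_comp, mul_comp, C_comp]
  rw [mul_pow, C_pow]

theorem ev_comp (z : k) (G : ℤ[X]) (t : ℕ) : ev z (G.comp (X ^ t)) = ev (z ^ t) G := by
  simp [ev, Polynomial.map_comp, eval_comp]

theorem ev_mul (z : k) (G H : ℤ[X]) : ev z (G * H) = ev z G * ev z H := by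
  simp [ev, Polynomial.map_mul]

theorem ev_add (z : k) (G H : ℤ[X]) : ev z (G + H) = ev z G + ev z H := by
  simp [ev, Polynomial.map_add]

theorem ev_pow (z : k) (G : ℤ[X]) (n : ℕ) : ev z (G ^ n) = ev z G ^ n := by
  simp [ev, Polynomial.map_pow]

theorem ev_X (z : k) : ev z X = z := by
  simp [ev]

/-- the reduction kills the kernel -/
theorem red_zero {p f : ℕ} [Fact p.Prime] (hpf : ¬ p ∣ f) (hf : 0 < f) {M : Type*} [Field M]
    [NumberField M] {ζ : 𝓞 M} (hζ : IsPrimitiveRoot ζ (f * p)) [CharP k p] {ρ : k}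
    (hρ : IsPrimitiveRoot ρ f) (G : ℤ[X]) (hG : aeval ζ G = 0) :
    (X - 1) ^ (p - 1) ∣ Gr ρ G := by
  have hp : p.Prime := Fact.out
  have hz : IsPrimitiveRoot (ζ : M) (f * p) := hζ.map_of_injective RingOfIntegers.coe_injective
  have hG' : aeval (ζ : M) G = 0 := by
    have h1 := congrArg (algebraMap (𝓞 M) M) hG
    rw [map_zero, ← Polynomial.aeval_algebraMap_apply] at h1
    exact h1
  have hpos : 0 < f * p := Nat.mul_pos hf hp.pos
  have h1 : minpoly ℤ (ζ : M) ∣ G :=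
    minpoly.isIntegrallyClosed_dvd (hz.isIntegral hpos) hG'
  rw [← cyclotomic_eq_minpoly hz hpos] at h1
  obtain ⟨H, hH⟩ := h1
  have h2 : Gr ρ G = ((cyclotomic f k).comp (C ρ * X)) ^ (p - 1) * Gr ρ H := by
    rw [hH, Gr_mul]
    congr 1
    rw [Gr, map_cyclotomic, cyclotomic_mul_prime_eq_pow_of_not_dvd k hpf, pow_comp]
  rw [h2]
  refine Dvd.dvd.mul_right (pow_dvd_pow_of_dvd ?_ _) _
  rw [← C_1, dvd_iff_isRoot, IsRoot.def, eval_comp]
  simp only [eval_mul, eval_C, eval_X, mul_one]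
  exact hρ.isRoot_cyclotomic hf

theorem pow_p_dvd {p : ℕ} [Fact p.Prime] [CharP k p] (F : k[X]) :
    (X - 1) ^ p ∣ F ^ p - C (F.eval 1 ^ p) := by
  have h1 : F ^ p - C (F.eval 1 ^ p) = (F - C (F.eval 1)) ^ p := by
    rw [sub_pow_char, C_pow]
  rw [h1]
  refine pow_dvd_pow_of_dvd ?_ _
  rw [← C_1, dvd_iff_isRoot, IsRoot.def]
  simp

/-- an element outside the primes above `p` does not vanish at `ρ` -/
theorem ev_ne_zero {p f : ℕ} [Fact p.Prime] (hpf : ¬ p ∣ f) (hf : 0 < f) {M : Type*} [Field M]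
    [NumberField M] [NeZero (f * p)] [IsCyclotomicExtension {f * p} ℚ M] {ζ : 𝓞 M}
    (hζ : IsPrimitiveRoot ζ (f * p))
    [CharP k p] {ρ : k} (hρ : IsPrimitiveRoot ρ f) (G : ℤ[X])
    (hG : ∀ P : Ideal (𝓞 M), P.IsPrime → (p : 𝓞 M) ∈ P → aeval ζ G ∉ P) : ev ρ G ≠ 0 := by
  have hp : p.Prime := Fact.out
  have hz : IsPrimitiveRoot (ζ : M) (f * p) := hζ.map_of_injective RingOfIntegers.coe_injective
  have hzi : hz.toInteger = ζ := RingOfIntegers.ext rfl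
  have hgen : hz.integralPowerBasis.gen = ζ := by
    rw [IsPrimitiveRoot.integralPowerBasis_gen, hzi]
  have hroot : aeval ρ (minpoly ℤ hz.integralPowerBasis.gen) = 0 := by
    have h0 : aeval ζ (minpoly ℤ hz.integralPowerBasis.gen) = 0 := by
      rw [hgen]; exact minpoly.aeval ℤ ζ
    have h1 := red_zero hpf hf hζ hρ _ h0
    have h2 : (X - 1 : k[X]) ∣ Gr ρ (minpoly ℤ hz.integralPowerBasis.gen) :=
      (dvd_pow_self _ (by have := hp.two_le; omega)).trans h1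
    rw [← C_1, dvd_iff_isRoot, IsRoot.def, Gr_eval_one] at h2
    rw [aeval_def, ← eval_map]
    exact h2
  set φ : 𝓞 M →ₐ[ℤ] k := hz.integralPowerBasis.lift ρ hroot with hφ
  have hφG : ∀ G : ℤ[X], φ (aeval ζ G) = ev ρ G := by
    intro G
    have h1 := PowerBasis.lift_aeval hz.integralPowerBasis ρ hroot G
    rw [hgen] at h1
    rw [hφ, h1, aeval_def, ← eval_map]
    rfl
  have hker : (RingHom.ker φ.toRingHom).IsPrime := RingHom.ker_isPrime _
  have hpk : (p : 𝓞 M) ∈ RingHom.ker φ.toRingHom := by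
    rw [RingHom.mem_ker]
    simp
  have h3 := hG _ hker hpk
  rw [RingHom.mem_ker] at h3
  rw [← hφG]
  exact h3

theorem prod_congr_dvd {R ι : Type*} [CommRing R] (d : R) (s : Finset ι) (f g : ι → R)
    (h : ∀ i ∈ s, d ∣ f i - g i) : d ∣ ∏ i ∈ s, f i - ∏ i ∈ s, g i := by
  classical
  induction s using Finset.induction_on with
  | empty => simp
  | insert a s ha ih =>
    rw [Finset.prod_insert ha, Finset.prod_insert ha]
    have h1 := h a (Finset.mem_insert_self _ _)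
    have h2 := ih (fun i hi => h i (Finset.mem_insert_of_mem hi))
    have h3 : f a * ∏ i ∈ s, f i - g a * ∏ i ∈ s, g i
        = (f a - g a) * ∏ i ∈ s, f i + g a * (∏ i ∈ s, f i - ∏ i ∈ s, g i) := by ring
    rw [h3]
    exact dvd_add (h1.mul_right _) (h2.mul_left _)

theorem smul_aeval {M : Type*} [Field M] [NumberField M] {m : ℕ} [NeZero m]
    [IsCyclotomicExtension {m} ℚ M] {ζ : 𝓞 M} (hζ : IsPrimitiveRoot ζ m) (σ : M ≃ₐ[ℚ] M)
    (F : ℤ[X]) :
    σ • aeval ζ F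
      = aeval ζ (F.comp (X ^ (IsCyclotomicExtension.Rat.galEquivZMod m M σ).val.val)) := by
  have h2 : σ • aeval ζ F = aeval (σ • ζ) F := by
    have h3 := (Polynomial.aeval_algHom_apply
      (MulSemiringAction.toRingHom (M ≃ₐ[ℚ] M) (𝓞 M) σ).toIntAlgHom ζ F).symm
    exact h3
  have h4 := IsCyclotomicExtension.Rat.galEquivZMod_smul_of_pow_eq m M σ hζ.pow_eq_one
  rw [h2, h4, aeval_comp, map_pow, aeval_X]

/-- the exponent of the automorphism `σ⁻¹` -/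
noncomputable def tt (m : ℕ) [NeZero m] (M : Type*) [Field M] [NumberField M]
    [IsCyclotomicExtension {m} ℚ M] (σ : M ≃ₐ[ℚ] M) : ℕ :=
  (IsCyclotomicExtension.Rat.galEquivZMod m M σ⁻¹).val.val

theorem exists_poly {M : Type*} [Field M] [NumberField M] {m : ℕ} [NeZero m]
    [IsCyclotomicExtension {m} ℚ M] {ζ : 𝓞 M} (hζ : IsPrimitiveRoot ζ m) (x : 𝓞 M) :
    ∃ G : ℤ[X], aeval ζ G = x := by
  have hz : IsPrimitiveRoot (ζ : M) m := hζ.map_of_injective RingOfIntegers.coe_injective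
  have hzi : hz.toInteger = ζ := RingOfIntegers.ext rfl
  have hgen : hz.integralPowerBasis.gen = ζ := by
    rw [IsPrimitiveRoot.integralPowerBasis_gen, hzi]
  obtain ⟨G, hG⟩ := hz.integralPowerBasis.exists_eq_aeval' x
  rw [hgen] at hG
  exact ⟨G, hG.symm⟩

/-- relation for a general element `A = G(ζ)` -/
theorem rel_gen {p f : ℕ} [Fact p.Prime] (hpf : ¬ p ∣ f) (hf : 0 < f) {M : Type*} [Field M]
    [NumberField M] [NeZero (f * p)] [IsCyclotomicExtension {f * p} ℚ M] {ζ : 𝓞 M}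
    (hζ : IsPrimitiveRoot ζ (f * p)) [CharP k p] {ρ : k} (hρ : IsPrimitiveRoot ρ f)
    (T : Finset (M ≃ₐ[ℚ] M)) (G : ℤ[X])
    (hA : ∀ P : Ideal (𝓞 M), P.IsPrime → (p : 𝓞 M) ∈ P → aeval ζ G ∉ P)
    (hT : ∃ (i : ℕ) (x J : 𝓞 M),
      (∀ P : Ideal (𝓞 M), P.IsPrime → (p : 𝓞 M) ∈ P → x ∉ P ∧ J ∉ P) ∧
      (∏ σ ∈ T, σ⁻¹ • aeval ζ G) * J ^ p = (ζ ^ f) ^ i * x ^ p)
    (j : ℕ) (hj : 2 ≤ j) (hjp : j + 2 ≤ p) :
    ∑ σ ∈ T, ((tt (f * p) M σ : ℕ) : k) ^ j * DL j (Gr (ρ ^ tt (f * p) M σ) G) = 0 := by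
  classical
  have hp : p.Prime := Fact.out
  obtain ⟨i, x, J, hxJ, hrel⟩ := hT
  obtain ⟨GJ, hGJ⟩ := exists_poly hζ J
  obtain ⟨Gx, hGx⟩ := exists_poly hζ x
  have hcJ : ev ρ GJ ≠ 0 := ev_ne_zero hpf hf hζ hρ GJ (fun P hP hpP => by
    rw [hGJ]; exact (hxJ P hP hpP).2)
  have hcx : ev ρ Gx ≠ 0 := ev_ne_zero hpf hf hζ hρ Gx (fun P hP hpP => by
    rw [hGx]; exact (hxJ P hP hpP).1)
  -- the values of the factors
  have hcG : ∀ σ ∈ T, (Gr (ρ ^ tt (f * p) M σ) G).eval 1 ≠ 0 := by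
    intro σ _
    rw [Gr_eval_one, ← ev_comp]
    refine ev_ne_zero hpf hf hζ hρ _ ?_
    intro P hP hpP
    have h1 : aeval ζ (G.comp (X ^ tt (f * p) M σ)) = σ⁻¹ • aeval ζ G := by
      rw [smul_aeval hζ]
      rfl
    rw [h1]
    intro h2
    -- transport the prime
    have h3 := hA (Ideal.comap (MulSemiringAction.toRingHom (M ≃ₐ[ℚ] M) (𝓞 M) σ⁻¹) P)
      (Ideal.comap_isPrime _ _) (by
        rw [Ideal.mem_comap, map_natCast]
        exact hpP)
    apply h3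
    rw [Ideal.mem_comap]
    exact h2
  have hfun : aeval ζ ((∏ σ ∈ T, G.comp (X ^ tt (f * p) M σ)) * GJ ^ p
      - (X ^ f) ^ i * Gx ^ p) = 0 := by
    rw [map_sub, map_mul, map_mul, map_pow, map_pow, map_pow, map_pow, aeval_X, hGJ, hGx, map_prod]
    have h1 : ∏ σ ∈ T, aeval ζ (G.comp (X ^ tt (f * p) M σ)) = ∏ σ ∈ T, σ⁻¹ • aeval ζ G := by
      apply Finset.prod_congr rfl
      intro σ _
      rw [smul_aeval hζ]
      rfl
    rw [h1, hrel, sub_self]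
  have hdv := red_zero hpf hf hζ hρ _ hfun
  rw [Gr_sub, Gr_mul, Gr_mul, Gr_prod, Gr_pow, Gr_pow, Gr_pow, Gr_pow, Gr_X] at hdv
  have hXf : (C ρ * X : k[X]) ^ f = X ^ f := by
    rw [mul_pow, ← C_pow, hρ.pow_eq_one, C_1, one_mul]
  rw [hXf] at hdv
  have hple : (X - 1 : k[X]) ^ (p - 1) ∣ (X - 1) ^ p := pow_dvd_pow _ (by omega)
  have hJ := hple.trans (pow_p_dvd (p := p) (Gr ρ GJ))
  have hx := hple.trans (pow_p_dvd (p := p) (Gr ρ Gx))
  rw [Gr_eval_one] at hJ hx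
  set U : k[X] := (∏ σ ∈ T, Gr ρ (G.comp (X ^ tt (f * p) M σ))) * C (ev ρ GJ ^ p) with hU
  set V : k[X] := (X ^ f) ^ i * C (ev ρ Gx ^ p) with hV
  have hUV : (X - 1 : k[X]) ^ (p - 1) ∣ U - V := by
    have h1 : U - V = ((∏ σ ∈ T, Gr ρ (G.comp (X ^ tt (f * p) M σ))) * Gr ρ GJ ^ p
        - (X ^ f) ^ i * Gr ρ Gx ^ p)
        - (∏ σ ∈ T, Gr ρ (G.comp (X ^ tt (f * p) M σ))) * (Gr ρ GJ ^ p - C (ev ρ GJ ^ p))
        + (X ^ f) ^ i * (Gr ρ Gx ^ p - C (ev ρ Gx ^ p)) := by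
      rw [hU, hV]; ring
    rw [h1]
    exact dvd_add (dvd_sub hdv (hJ.mul_left _)) (hx.mul_left _)
  have hUV' : (X - 1 : k[X]) ^ (j + 1) ∣ U - V := (pow_dvd_pow _ (by omega)).trans hUV
  have hDL := DL_congr j (by omega) U V hUV'
  have hV' : DL j V = 0 := by
    rw [hV, DL_mul j (by omega), ← pow_mul, DL_pow j (by omega), DL_X j hj, DL_C j (by omega)]
    · simp
    · simp
    · simp
    · rw [eval_C]; exact pow_ne_zero _ hcx
  have hcG' : ∀ σ ∈ T, ((Gr (ρ ^ tt (f * p) M σ) G).comp (X ^ tt (f * p) M σ)).eval 1 ≠ 0 := by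
    intro σ hσ
    rw [eval_comp, eval_pow, eval_X, one_pow]
    exact hcG σ hσ
  have hU' : DL j U = ∑ σ ∈ T, ((tt (f * p) M σ : ℕ) : k) ^ j
      * DL j (Gr (ρ ^ tt (f * p) M σ) G) := by
    have h1 : (∏ σ ∈ T, Gr ρ (G.comp (X ^ tt (f * p) M σ))) =
        ∏ σ ∈ T, ((Gr (ρ ^ tt (f * p) M σ) G).comp (X ^ tt (f * p) M σ)) ^ 1 := by
      apply Finset.prod_congr rfl
      intro σ _
      rw [Gr_comp, pow_one]
    rw [hU, h1, DL_mul j (by omega), DL_prod j (by omega) T _ _ hcG', DL_C j (by omega), add_zero]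
    · apply Finset.sum_congr rfl
      intro σ _
      rw [DL_comp j (by omega)]
      simp
    · rw [eval_prod]
      refine Finset.prod_ne_zero_iff.mpr fun σ hσ => ?_
      rw [pow_one]
      exact hcG' σ hσ
    · rw [eval_C]; exact pow_ne_zero _ hcJ
  rw [← hU', hDL, hV']

end H86AB
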